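import Mathlib

namespace Pool.Agent.Results.MP_cecf76_co.DenseIntersecting

open Finset

/-- The index set `I` is `ε`-intersecting for the sequence `A` of subsets of an `n`-element
set: the sets belonging to two distinct indices of `I` share more than `ε n` elements. -/
def EpsIntersecting {n m : ℕ} (ε : ℝ) (A : Fin m → Finset (Fin n)) (I : Finset (Fin m)) :
    Prop :=
  ∀ i ∈ I, ∀ j ∈ I, i ≠ j → ε * n < ((A i ∩ A j).card : ℝ)

/-- `f n m c ε` is the largest `q` such that every sequence of `m` subsets of an `n`-element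
set, each with more than `c n` elements, has an `ε`-intersecting index set of size `q`. -/
noncomputable def f (n m : ℕ) (c ε : ℝ) : ℕ :=
  sSup {q : ℕ | ∀ A : Fin m → Finset (Fin n), (∀ k, c * n < ((A k).card : ℝ)) →
    ∃ I : Finset (Fin m), I.card = q ∧ EpsIntersecting ε A I}

lemma le_f {n m : ℕ} {c ε : ℝ} (hn : 1 ≤ n) (hc : c < 1) (x : ℝ)
    (h : ∀ A : Fin m → Finset (Fin n), (∀ k, c * n < ((A k).card : ℝ)) →
      ∃ I : Finset (Fin m), x ≤ (I.card : ℝ) ∧ EpsIntersecting ε A I) :
    x ≤ (f n m c ε : ℝ) := by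
  have hval : ∀ k : Fin m, c * n < (((fun _ : Fin m => (univ : Finset (Fin n))) k).card : ℝ) := by
    intro k
    have hn' : (0 : ℝ) < n := by exact_mod_cast hn
    simp only [card_univ, Fintype.card_fin]
    nlinarith
  have hmem : ⌈x⌉₊ ∈ {q : ℕ | ∀ A : Fin m → Finset (Fin n), (∀ k, c * n < ((A k).card : ℝ)) →
      ∃ I : Finset (Fin m), I.card = q ∧ EpsIntersecting ε A I} := by
    intro A hA
    obtain ⟨I, hI, hE⟩ := h A hA
    have : ⌈x⌉₊ ≤ I.card := Nat.ceil_le.mpr hI
    obtain ⟨J, hJ, hJc⟩ := Finset.exists_subset_card_eq this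
    exact ⟨J, hJc, fun i hi j hj hij => hE i (hJ hi) j (hJ hj) hij⟩
  have hb : BddAbove {q : ℕ | ∀ A : Fin m → Finset (Fin n), (∀ k, c * n < ((A k).card : ℝ)) →
      ∃ I : Finset (Fin m), I.card = q ∧ EpsIntersecting ε A I} := by
    refine ⟨m, ?_⟩
    intro q hq
    obtain ⟨I, hI, -⟩ := hq _ hval
    rw [← hI]
    calc I.card ≤ (univ : Finset (Fin m)).card := card_le_card (subset_univ _)
      _ = m := by simp
  calc x ≤ (⌈x⌉₊ : ℝ) := Nat.le_ceil x
    _ ≤ (f n m c ε : ℝ) := by exact_mod_cast le_csSup hb hmem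

lemma f_le {n m : ℕ} {c ε : ℝ} (b : ℝ) (A : Fin m → Finset (Fin n))
    (hA : ∀ k, c * n < ((A k).card : ℝ))
    (h : ∀ I : Finset (Fin m), EpsIntersecting ε A I → (I.card : ℝ) ≤ b) :
    (f n m c ε : ℝ) ≤ b := by
  have hb : 0 ≤ b := by
    have := h ∅ (by intro i hi; simp at hi)
    simpa using this
  have : f n m c ε ≤ ⌊b⌋₊ := by
    apply csSup_le'
    intro q hq
    obtain ⟨I, hI, hE⟩ := hq A hA
    have := h I hE
    rw [hI] at this
    exact Nat.le_floor this
  calc (f n m c ε : ℝ) ≤ (⌊b⌋₊ : ℝ) := by exact_mod_cast this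
    _ ≤ b := Nat.floor_le hb

/-! ### The inequality for two sets of binary words at large distance -/

lemma hammingDist_cons {d : ℕ} (a b : Bool) (x y : Fin d → Bool) :
    hammingDist (Fin.cons a x : Fin (d + 1) → Bool) (Fin.cons b y) =
      (if a = b then 0 else 1) + hammingDist x y := by
  unfold hammingDist
  rw [Finset.card_filter, Finset.card_filter, Fin.sum_univ_succ]
  simp only [Fin.cons_zero, Fin.cons_succ]
  congr 1
  by_cases h : a = b <;> simp [h]

lemma card_slices {d : ℕ} (A : Finset (Fin (d + 1) → Bool)) :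
    A.card ≤ (univ.filter (fun x : Fin d → Bool => (Fin.cons false x : Fin (d + 1) → Bool) ∈ A)).card
      + (univ.filter (fun x : Fin d → Bool => (Fin.cons true x : Fin (d + 1) → Bool) ∈ A)).card := by
  have hsub : A ⊆ (univ.filter (fun x : Fin d → Bool =>
        (Fin.cons false x : Fin (d + 1) → Bool) ∈ A)).image (fun x => Fin.cons false x) ∪
      (univ.filter (fun x : Fin d → Bool =>
        (Fin.cons true x : Fin (d + 1) → Bool) ∈ A)).image (fun x => Fin.cons true x) := by
    intro z hz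
    rw [mem_union, mem_image, mem_image]
    have hz' : (Fin.cons (z 0) (Fin.tail z) : Fin (d + 1) → Bool) = z := Fin.cons_self_tail z
    rcases h : z 0 with _ | _
    · left
      refine ⟨Fin.tail z, ?_, ?_⟩
      · rw [mem_filter]; rw [h] at hz'; exact ⟨mem_univ _, by rw [hz']; exact hz⟩
      · rw [h] at hz'; exact hz'
    · right
      refine ⟨Fin.tail z, ?_, ?_⟩
      · rw [mem_filter]; rw [h] at hz'; exact ⟨mem_univ _, by rw [hz']; exact hz⟩
      · rw [h] at hz'; exact hz'
  calc A.card ≤ _ := card_le_card hsub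
    _ ≤ _ := card_union_le _ _
    _ ≤ _ := Nat.add_le_add card_image_le card_image_le

lemma arith_step (θ F a0 a1 b0 b1 : ℝ) (hθ : 0 < θ) (hF : 0 < F)
    (ha1 : 0 ≤ a1) (hb1 : 0 ≤ b1)
    (h00 : a0 * b0 ≤ F) (h11 : a1 * b1 ≤ F) (h01 : a0 * b1 ≤ F / θ) (h10 : a1 * b0 ≤ F / θ) :
    (a0 + a1) * (b0 + b1) ≤ (1 + θ) ^ 2 / θ * F := by
  set r := a0 * b1 with hr
  set s := a1 * b0 with hs
  have hrs : r * s ≤ F * F := by
    have : r * s = (a0 * b0) * (a1 * b1) := by rw [hr, hs]; ring
    rw [this]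
    exact mul_le_mul h00 h11 (mul_nonneg ha1 hb1) hF.le
  have hsum : r + s ≤ F / θ + θ * F := by
    have h1 : 0 ≤ (F / θ - r) * (F / θ - s) := mul_nonneg (by linarith) (by linarith)
    have hFθ : 0 < F / θ := div_pos hF hθ
    have h2 : (F / θ) * (r + s) ≤ (F / θ) * (F / θ + θ * F) := by
      have : (F / θ) * (θ * F) = F * F := by field_simp
      nlinarith
    exact le_of_mul_le_mul_left h2 hFθ
  have hexp : (1 + θ) ^ 2 / θ * F = F / θ + 2 * F + θ * F := by field_simp; ring
  rw [hexp]
  have : (a0 + a1) * (b0 + b1) = a0 * b0 + a1 * b1 + (r + s) := by rw [hr, hs]; ring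
  linarith

/-- If every word of `A` is at Hamming distance at least `k` from every word of `B`, then
`|A||B| ≤ ((1+θ)²/θ)^d θ^k` for every `0 < θ ≤ 1`. -/
lemma two_set (θ : ℝ) (hθ : 0 < θ) (hθ1 : θ ≤ 1) : ∀ (d k : ℕ) (A B : Finset (Fin d → Bool)),
    (∀ x ∈ A, ∀ y ∈ B, k ≤ hammingDist x y) →
    (A.card : ℝ) * B.card ≤ ((1 + θ) ^ 2 / θ) ^ d * θ ^ k := by
  intro d
  induction d with
  | zero =>
    intro k A B h
    rcases A.eq_empty_or_nonempty with hA | ⟨x, hx⟩
    · subst hA; simp; positivity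
    rcases B.eq_empty_or_nonempty with hB | ⟨y, hy⟩
    · subst hB; simp; positivity
    have hk : k = 0 := by
      have := h x hx y hy
      have h0 : hammingDist x y = 0 := by
        rw [hammingDist_eq_zero]; exact Subsingleton.elim _ _
      omega
    subst hk
    have hA1 : A.card ≤ 1 := Finset.card_le_one_of_subsingleton A
    have hB1 : B.card ≤ 1 := Finset.card_le_one_of_subsingleton B
    have hA1' : (A.card : ℝ) ≤ 1 := by exact_mod_cast hA1
    have hB1' : (B.card : ℝ) ≤ 1 := by exact_mod_cast hB1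
    have : (0 : ℝ) ≤ A.card := by positivity
    have : (0 : ℝ) ≤ B.card := by positivity
    simp
    nlinarith
  | succ d ih =>
    intro k A B h
    set A0 := univ.filter (fun x : Fin d → Bool => (Fin.cons false x : Fin (d + 1) → Bool) ∈ A)
      with hA0
    set A1 := univ.filter (fun x : Fin d → Bool => (Fin.cons true x : Fin (d + 1) → Bool) ∈ A)
      with hA1
    set B0 := univ.filter (fun x : Fin d → Bool => (Fin.cons false x : Fin (d + 1) → Bool) ∈ B)
      with hB0
    set B1 := univ.filter (fun x : Fin d → Bool => (Fin.cons true x : Fin (d + 1) → Bool) ∈ B)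
      with hB1
    have cA : (A.card : ℝ) ≤ A0.card + A1.card := by exact_mod_cast card_slices A
    have cB : (B.card : ℝ) ≤ B0.card + B1.card := by exact_mod_cast card_slices B
    have d00 : ∀ x ∈ A0, ∀ y ∈ B0, k ≤ hammingDist x y := by
      intro x hx y hy
      rw [hA0, mem_filter] at hx
      rw [hB0, mem_filter] at hy
      have := h _ hx.2 _ hy.2
      rw [hammingDist_cons] at this
      simpa using this
    have d11 : ∀ x ∈ A1, ∀ y ∈ B1, k ≤ hammingDist x y := by
      intro x hx y hy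
      rw [hA1, mem_filter] at hx
      rw [hB1, mem_filter] at hy
      have := h _ hx.2 _ hy.2
      rw [hammingDist_cons] at this
      simpa using this
    have d01 : ∀ x ∈ A0, ∀ y ∈ B1, k - 1 ≤ hammingDist x y := by
      intro x hx y hy
      rw [hA0, mem_filter] at hx
      rw [hB1, mem_filter] at hy
      have := h _ hx.2 _ hy.2
      rw [hammingDist_cons] at this
      simp only [Bool.false_eq_true, if_false] at this
      omega
    have d10 : ∀ x ∈ A1, ∀ y ∈ B0, k - 1 ≤ hammingDist x y := by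
      intro x hx y hy
      rw [hA1, mem_filter] at hx
      rw [hB0, mem_filter] at hy
      have := h _ hx.2 _ hy.2
      rw [hammingDist_cons] at this
      simp only [Bool.true_eq_false, if_false] at this
      omega
    have i00 := ih k A0 B0 d00
    have i11 := ih k A1 B1 d11
    have i01 := ih (k - 1) A0 B1 d01
    have i10 := ih (k - 1) A1 B0 d10
    have hM : 0 < (1 + θ) ^ 2 / θ := by positivity
    have hF : 0 < ((1 + θ) ^ 2 / θ) ^ d * θ ^ k := by positivity
    have hk1 : ((1 + θ) ^ 2 / θ) ^ d * θ ^ (k - 1) ≤ ((1 + θ) ^ 2 / θ) ^ d * θ ^ k / θ := by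
      rw [mul_div_assoc]
      apply mul_le_mul_of_nonneg_left _ (by positivity)
      rw [le_div_iff₀ hθ, ← pow_succ]
      apply pow_le_pow_of_le_one hθ.le hθ1
      omega
    have := arith_step θ _ A0.card A1.card B0.card B1.card hθ hF (by positivity) (by positivity)
      i00 i11 (i01.trans hk1) (i10.trans hk1)
    calc (A.card : ℝ) * B.card ≤ (A0.card + A1.card) * (B0.card + B1.card) :=
          mul_le_mul cA cB (by positivity) (by positivity)
      _ ≤ _ := this
      _ = _ := by rw [pow_succ]; ring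

/-- A family of binary words of length `d`, any two of which agree in at least `ε d` places,
has at most `2^d exp(-ε² d / 2)` members. -/
lemma agree_family {d : ℕ} {ε : ℝ} (hε : 0 < ε) (G : Finset (Fin d → Bool))
    (hG : ∀ v ∈ G, ∀ w ∈ G, ε * d ≤ ((univ.filter (fun i => v i = w i)).card : ℝ)) :
    (G.card : ℝ) ≤ 2 ^ d * Real.exp (-(ε ^ 2 * d / 2)) := by
  set neg : (Fin d → Bool) → (Fin d → Bool) := fun v i => !(v i) with hneg
  have hinj : Function.Injective neg := by
    intro v w h
    funext i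
    have := congrFun h i
    simpa [hneg] using this
  have hdist : ∀ x ∈ G, ∀ y ∈ G.image neg, ⌈ε * d⌉₊ ≤ hammingDist x y := by
    intro x hx y hy
    rw [mem_image] at hy
    obtain ⟨w, hw, rfl⟩ := hy
    have h1 := hG x hx w hw
    have h2 : hammingDist x (neg w) = (univ.filter (fun i => x i = w i)).card := by
      unfold hammingDist
      congr 1
      apply filter_congr
      intro i _
      simp only [hneg]
      cases x i <;> cases w i <;> simp
    rw [h2]
    exact Nat.ceil_le.mpr h1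
  have hθ : 0 < Real.exp (-(2 * ε)) := Real.exp_pos _
  have hθ1 : Real.exp (-(2 * ε)) ≤ 1 := by
    rw [Real.exp_le_one_iff]; linarith
  have key := two_set _ hθ hθ1 d ⌈ε * d⌉₊ G (G.image neg) hdist
  rw [card_image_of_injective _ hinj] at key
  have hM : (1 + Real.exp (-(2 * ε))) ^ 2 / Real.exp (-(2 * ε)) = 4 * Real.cosh ε ^ 2 := by
    rw [Real.cosh_eq]
    have h1 : Real.exp (-(2 * ε)) = Real.exp (-ε) * Real.exp (-ε) := by
      rw [← Real.exp_add]; ring_nf
    have h2 : Real.exp ε * Real.exp (-ε) = 1 := by rw [← Real.exp_add]; simp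
    have h3 : 0 < Real.exp (-ε) := Real.exp_pos _
    rw [h1, div_eq_iff (by positivity)]
    have h4 : Real.exp ε = 1 / Real.exp (-ε) := by field_simp; linarith
    rw [h4]
    field_simp
    ring
  have hcosh : 4 * Real.cosh ε ^ 2 ≤ 4 * Real.exp (ε ^ 2) := by
    have h1 := Real.cosh_le_exp_half_sq ε
    have h0 : 0 < Real.cosh ε := Real.cosh_pos ε
    have : Real.cosh ε ^ 2 ≤ Real.exp (ε ^ 2 / 2) ^ 2 := pow_le_pow_left₀ h0.le h1 2
    rw [← Real.exp_nat_mul] at this
    have h5 : ((2 : ℕ) : ℝ) * (ε ^ 2 / 2) = ε ^ 2 := by push_cast; ring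
    rw [h5] at this
    linarith
  have hpow : Real.exp (-(2 * ε)) ^ ⌈ε * d⌉₊ ≤ Real.exp (-(2 * ε ^ 2 * d)) := by
    rw [← Real.exp_nat_mul]
    apply Real.exp_le_exp.mpr
    have := Nat.le_ceil (ε * d)
    nlinarith
  have hsq : (G.card : ℝ) ^ 2 ≤ (2 ^ d * Real.exp (-(ε ^ 2 * d / 2))) ^ 2 := by
    calc (G.card : ℝ) ^ 2 = G.card * G.card := by ring
      _ ≤ _ := key
      _ ≤ (4 * Real.exp (ε ^ 2)) ^ d * Real.exp (-(2 * ε ^ 2 * d)) := by
          rw [hM]
          apply mul_le_mul _ hpow (by positivity) (by positivity)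
          exact pow_le_pow_left₀ (by positivity) hcosh d
      _ = (2 ^ d * Real.exp (-(ε ^ 2 * d / 2))) ^ 2 := by
          rw [mul_pow, mul_pow, ← pow_mul, mul_comm d 2, pow_mul]
          rw [← Real.exp_nat_mul, ← Real.exp_nat_mul, mul_assoc, ← Real.exp_add]
          norm_num
          ring
  exact (pow_le_pow_iff_left₀ (by positivity) (by positivity) two_ne_zero).mp hsq

/-! ### The set system: all selections from `d` pairs, blown up -/

/-- For a word `v`, the set of all `((i, v i), j)` together with all the extra points. -/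
def sel {d q r : ℕ} (v : Fin d → Bool) : Finset (((Fin d × Bool) × Fin q) ⊕ Fin r) :=
  ((univ.filter (fun p : Fin d × Bool => v p.1 = p.2)) ×ˢ univ).disjSum univ

lemma card_agree {d : ℕ} (v w : Fin d → Bool) :
    (univ.filter (fun p : Fin d × Bool => v p.1 = p.2 ∧ w p.1 = p.2)).card =
      (univ.filter (fun i => v i = w i)).card := by
  symm
  apply Finset.card_bij (fun i _ => (i, v i))
  · intro i hi
    rw [mem_filter] at hi ⊢
    exact ⟨mem_univ _, rfl, hi.2.symm⟩
  · intro i _ j _ h
    exact congrArg Prod.fst h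
  · rintro ⟨i, b⟩ hp
    rw [mem_filter] at hp
    refine ⟨i, ?_, ?_⟩
    · rw [mem_filter]
      exact ⟨mem_univ _, by rw [hp.2.1]; exact hp.2.2.symm⟩
    · exact Prod.ext rfl hp.2.1

lemma card_sel_inter {d q r : ℕ} (v w : Fin d → Bool) :
    ((sel v : Finset (((Fin d × Bool) × Fin q) ⊕ Fin r)) ∩ sel w).card =
      (univ.filter (fun i => v i = w i)).card * q + r := by
  have : (sel v : Finset (((Fin d × Bool) × Fin q) ⊕ Fin r)) ∩ sel w =
      ((univ.filter (fun p : Fin d × Bool => v p.1 = p.2 ∧ w p.1 = p.2)) ×ˢ univ).disjSum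
        univ := by
    ext x
    rcases x with ⟨p, j⟩ | j
    · simp [sel]
    · simp [sel]
  rw [this, card_disjSum, card_product, card_agree]
  simp

lemma card_sel {d q r : ℕ} (v : Fin d → Bool) :
    (sel v : Finset (((Fin d × Bool) × Fin q) ⊕ Fin r)).card = d * q + r := by
  have := card_sel_inter (q := q) (r := r) v v
  rw [inter_self] at this
  rw [this]
  simp

/-- The main construction. -/
lemma upper_aux (n m d : ℕ) (hd : 1 ≤ d) (hn : 1 ≤ n) (c ε ε' : ℝ) (hc : c ≤ 1 / 2)
    (hε : 0 < ε) (hε1 : ε ≤ 1) (hεε : ε ≤ ε') (hdn : 4 * (d : ℝ) ≤ ε * n) (hdm : 2 ^ d ≤ m) :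
    (f n m c ε' : ℝ) ≤ 2 * (m * Real.exp (-(ε ^ 2 * d / 2))) := by
  set q := (n - 1) / (2 * d) with hq
  set r := (n - 1) % (2 * d) + 1 with hr
  have hnqr : n = (2 * d) * q + r := by
    have := Nat.div_add_mod (n - 1) (2 * d)
    rw [← hq] at this
    omega
  have hr2 : r ≤ 2 * d := by
    have := Nat.mod_lt (n - 1) (show 0 < 2 * d by omega)
    omega
  have hr1 : 1 ≤ r := by omega
  have hcard : Fintype.card (Fin n) = Fintype.card (((Fin d × Bool) × Fin q) ⊕ Fin r) := by
    simp only [Fintype.card_fin, Fintype.card_sum, Fintype.card_prod, Fintype.card_bool]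
    rw [hnqr]; ring
  obtain ⟨e⟩ := Fintype.card_eq.mp hcard
  have hcardV : Fintype.card (Fin d → Bool) = Fintype.card (Fin (2 ^ d)) := by simp
  obtain ⟨h⟩ := Fintype.card_eq.mp hcardV
  have h2d : 0 < 2 ^ d := by positivity
  set g : Fin m → (Fin d → Bool) := fun k => h.symm ⟨k.1 % 2 ^ d, Nat.mod_lt _ h2d⟩ with hg
  set A : Fin m → Finset (Fin n) := fun k => (sel (g k)).map e.symm.toEmbedding with hA
  have hinter : ∀ i j, ((A i ∩ A j).card) =
      (univ.filter (fun t => g i t = g j t)).card * q + r := by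
    intro i j
    rw [hA]
    simp only
    rw [← map_inter, card_map, card_sel_inter]
  have hAc : ∀ k, (A k).card = d * q + r := by
    intro k
    rw [hA]
    simp only
    rw [card_map, card_sel]
  apply f_le _ A
  · intro k
    rw [hAc k]
    have h1 : (n : ℝ) = 2 * d * q + r := by exact_mod_cast hnqr
    have h2 : (1 : ℝ) ≤ r := by exact_mod_cast hr1
    have h3 : (0 : ℝ) ≤ n := by positivity
    push_cast
    nlinarith
  · intro I hI
    have hG : ∀ v ∈ I.image g, ∀ w ∈ I.image g,
        ε * d ≤ ((univ.filter (fun i => v i = w i)).card : ℝ) := by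
      intro v hv w hw
      rw [mem_image] at hv hw
      obtain ⟨i, hi, rfl⟩ := hv
      obtain ⟨j, hj, rfl⟩ := hw
      by_cases hij : g i = g j
      · rw [hij]
        simp only [filter_true, card_univ, Fintype.card_fin]
        have : (0 : ℝ) ≤ d := by positivity
        nlinarith
      · have hne : i ≠ j := fun hh => hij (by rw [hh])
        have h1 := hI i hi j hj hne
        rw [hinter] at h1
        by_contra hcon
        push Not at hcon
        set a := (univ.filter (fun t => g i t = g j t)).card with ha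
        have hn0 : (0 : ℝ) ≤ n := by positivity
        have h2 : ε * n ≤ ε' * n := mul_le_mul_of_nonneg_right hεε hn0
        have h3 : (n : ℝ) = 2 * d * q + r := by exact_mod_cast hnqr
        have h4 : (r : ℝ) ≤ 2 * d := by exact_mod_cast hr2
        have h5 : (0 : ℝ) ≤ q := by positivity
        have h6 : (1 : ℝ) ≤ r := by exact_mod_cast hr1
        push_cast at h1
        have h7 : (a : ℝ) * q ≤ ε * d * q := mul_le_mul_of_nonneg_right hcon.le h5
        have h8 : ε * d * q ≤ ε * n / 2 := by rw [h3]; nlinarith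
        linarith
    have hGc := agree_family hε (I.image g) hG
    have hfib : ∀ a ∈ I.image g, (I.filter (fun x => g x = a)).card ≤ m / 2 ^ d + 1 := by
      intro a _
      have : (I.filter (fun x => g x = a)).card ≤ (range (m / 2 ^ d + 1)).card := by
        apply card_le_card_of_injOn (fun k : Fin m => k.1 / 2 ^ d)
        · intro k _
          simp only [coe_range, Set.mem_Iio]
          have : k.1 / 2 ^ d ≤ m / 2 ^ d := Nat.div_le_div_right k.2.le
          omega
        · intro k hk l hl hkl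
          simp only [coe_filter, Set.mem_ofPred_eq] at hk hl
          have h1 : g k = g l := by rw [hk.2, hl.2]
          rw [hg] at h1
          have h2 := h.symm.injective h1
          have h3 : k.1 % 2 ^ d = l.1 % 2 ^ d := by
            have := congrArg Fin.val h2
            simpa using this
          have h4 : k.1 / 2 ^ d = l.1 / 2 ^ d := hkl
          apply Fin.ext
          rw [← Nat.div_add_mod k.1 (2 ^ d), ← Nat.div_add_mod l.1 (2 ^ d), h3, h4]
      simpa using this
    have hIc : I.card ≤ (m / 2 ^ d + 1) * (I.image g).card :=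
      Finset.card_le_mul_card_image I _ hfib
    have hIc' : (I.card : ℝ) ≤ ((m / 2 ^ d : ℕ) + 1 : ℝ) * (I.image g).card := by
      exact_mod_cast hIc
    have h2dR : (0 : ℝ) < 2 ^ d := by positivity
    have hq1 : ((m / 2 ^ d : ℕ) : ℝ) ≤ m / 2 ^ d := by
      have := @Nat.cast_div_le ℝ _ _ _ m (2 ^ d)
      simpa using this
    have hq2 : (1 : ℝ) ≤ m / 2 ^ d := by
      rw [le_div_iff₀ h2dR]
      have : ((2 ^ d : ℕ) : ℝ) ≤ m := by exact_mod_cast hdm
      push_cast at this
      linarith
    calc (I.card : ℝ) ≤ ((m / 2 ^ d : ℕ) + 1 : ℝ) * (I.image g).card := hIc'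
      _ ≤ (2 * (m / 2 ^ d)) * (2 ^ d * Real.exp (-(ε ^ 2 * d / 2))) := by
          have hx : ((m / 2 ^ d : ℕ) : ℝ) + 1 ≤ 2 * (m / 2 ^ d) := by linarith
          have hy : (0 : ℝ) ≤ 2 * (m / 2 ^ d) := by linarith
          exact mul_le_mul hx hGc (Nat.cast_nonneg _) hy
      _ = 2 * (m * Real.exp (-(ε ^ 2 * d / 2))) := by
          field_simp

lemma f_le_m (n m : ℕ) (hn : 1 ≤ n) (c ε : ℝ) (hc : c ≤ 1 / 2) : (f n m c ε : ℝ) ≤ m := by
  apply f_le _ (fun _ : Fin m => (univ : Finset (Fin n)))
  · intro k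
    have hn' : (0 : ℝ) < n := by exact_mod_cast hn
    simp only [card_univ, Fintype.card_fin]
    nlinarith
  · intro I _
    have : I.card ≤ m := by
      calc I.card ≤ (univ : Finset (Fin m)).card := card_le_card (subset_univ _)
        _ = m := by simp
    exact_mod_cast this

/-- Upper bound: `f(n,m,c,ε') ≤ 2e · m · exp(-(ε³/8) min(n, log m))`. -/
lemma upper (n m : ℕ) (hn : 1 ≤ n) (hm : 1 ≤ m) (c ε ε' : ℝ) (hc : c ≤ 1 / 2)
    (hε : 0 < ε) (hε1 : ε ≤ 1) (hεε : ε ≤ ε') :
    (f n m c ε' : ℝ) ≤ 2 * Real.exp 1 *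
      (m * Real.exp (-(ε ^ 3 / 8 * min (n : ℝ) (Real.log m)))) := by
  set L := min (n : ℝ) (Real.log m) with hL
  set d := min ⌊ε * n / 4⌋₊ (Nat.log 2 m) with hd
  have hmpos : (0 : ℝ) < m := by exact_mod_cast hm
  have hlog0 : 0 ≤ Real.log m := Real.log_nonneg (by exact_mod_cast hm)
  have hn0 : (0 : ℝ) ≤ n := by positivity
  have hL0 : 0 ≤ L := le_min hn0 hlog0
  have hdL : ε / 4 * L - 1 ≤ (d : ℝ) := by
    rw [hd, Nat.cast_min]
    apply le_min
    · have h1 := Nat.lt_floor_add_one (ε * n / 4)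
      have h2 : L ≤ n := min_le_left _ _
      nlinarith
    · have h1 : m < 2 ^ (Nat.log 2 m + 1) := Nat.lt_pow_succ_log_self (by norm_num) m
      have h2 : (m : ℝ) ≤ 2 ^ (Nat.log 2 m + 1) := by exact_mod_cast h1.le
      have h3 : Real.log m ≤ (Nat.log 2 m + 1 : ℕ) * Real.log 2 := by
        have := Real.log_le_log hmpos h2
        rwa [Real.log_pow] at this
      have h4 : Real.log 2 ≤ 1 := by
        have := Real.log_two_lt_d9
        linarith
      have h5 : Real.log m ≤ (Nat.log 2 m : ℝ) + 1 := by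
        push_cast at h3
        have : (0 : ℝ) ≤ (Nat.log 2 m : ℝ) + 1 := by positivity
        nlinarith
      have h6 : L ≤ Real.log m := min_le_right _ _
      nlinarith
  have hmain : (f n m c ε' : ℝ) ≤ 2 * (m * Real.exp (-(ε ^ 2 * d / 2))) := by
    rcases Nat.eq_zero_or_pos d with h0 | h0
    · rw [h0]
      simp only [Nat.cast_zero, mul_zero, zero_div, neg_zero, Real.exp_zero, mul_one]
      have := f_le_m n m hn c ε' hc
      linarith
    · apply upper_aux n m d h0 hn c ε ε' hc hε hε1 hεε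
      · have h1 : d ≤ ⌊ε * n / 4⌋₊ := min_le_left _ _
        have h2 : (d : ℝ) ≤ ε * n / 4 :=
          le_trans (by exact_mod_cast h1) (Nat.floor_le (by positivity))
        linarith
      · have h1 : d ≤ Nat.log 2 m := min_le_right _ _
        calc 2 ^ d ≤ 2 ^ (Nat.log 2 m) := Nat.pow_le_pow_right (by norm_num) h1
          _ ≤ m := Nat.pow_log_le_self 2 (by omega)
  calc (f n m c ε' : ℝ) ≤ 2 * (m * Real.exp (-(ε ^ 2 * d / 2))) := hmain
    _ ≤ 2 * (m * Real.exp (1 + -(ε ^ 3 / 8 * L))) := by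
        apply mul_le_mul_of_nonneg_left _ (by norm_num)
        apply mul_le_mul_of_nonneg_left _ hmpos.le
        apply Real.exp_le_exp.mpr
        have h1 : ε ^ 2 * (ε / 4 * L - 1) ≤ ε ^ 2 * d := mul_le_mul_of_nonneg_left hdL (by positivity)
        have h2 : ε ^ 2 ≤ 1 := by nlinarith
        nlinarith
    _ = _ := by rw [Real.exp_add]; ring

/-! ### The lower bounds -/

/-- Dependent random choice. -/
lemma lower_drc (n m t : ℕ) (hn : 1 ≤ n) (c ε : ℝ) (hc0 : 0 < c) (hε : 0 < ε)
    (ht : 2 * m * ε ^ t ≤ c ^ t)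
    (A : Fin m → Finset (Fin n)) (hA : ∀ k, c * n < ((A k).card : ℝ)) :
    ∃ I : Finset (Fin m), m * c ^ t / 2 ≤ (I.card : ℝ) ∧ EpsIntersecting ε A I := by
  classical
  set F : (Fin t → Fin n) → Finset (Fin m) := fun x => univ.filter (fun i => ∀ s, x s ∈ A i)
    with hF
  set bad : Finset (Fin m × Fin m) := univ.filter (fun p => p.1 < p.2 ∧
    ((A p.1 ∩ A p.2).card : ℝ) ≤ ε * n) with hbad
  set P : (Fin t → Fin n) → Finset (Fin m × Fin m) := fun x =>
    bad.filter (fun p => ∀ s, x s ∈ A p.1 ∩ A p.2) with hP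
  have hnR : (0 : ℝ) < n := by exact_mod_cast hn
  have hcount : ∀ S : Finset (Fin n),
      ((univ : Finset (Fin t → Fin n)).filter (fun x => ∀ s, x s ∈ S)).card = S.card ^ t := by
    intro S
    have : (univ : Finset (Fin t → Fin n)).filter (fun x => ∀ s, x s ∈ S) =
        Fintype.piFinset (fun _ => S) := by
      ext x
      simp [Fintype.mem_piFinset]
    rw [this, Fintype.card_piFinset_const]
  have hsumF : ∑ x, ((F x).card : ℝ) = ∑ i, ((A i).card : ℝ) ^ t := by
    have h1 : ∀ x, ((F x).card : ℝ) = ∑ i, if (∀ s, x s ∈ A i) then (1 : ℝ) else 0 := by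
      intro x
      rw [hF]
      simp only [card_filter, Nat.cast_sum, Nat.cast_ite, Nat.cast_one, Nat.cast_zero]
    simp_rw [h1]
    rw [sum_comm]
    apply sum_congr rfl
    intro i _
    have h2 := hcount (A i)
    rw [card_filter] at h2
    have h3 : ((∑ x : Fin t → Fin n, if (∀ s, x s ∈ A i) then 1 else 0 : ℕ) : ℝ) =
        ((A i).card ^ t : ℕ) := by exact_mod_cast h2
    push_cast at h3
    exact h3
  have hsumP : ∑ x, ((P x).card : ℝ) = ∑ p ∈ bad, ((A p.1 ∩ A p.2).card : ℝ) ^ t := by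
    have h1 : ∀ x, ((P x).card : ℝ) =
        ∑ p ∈ bad, if (∀ s, x s ∈ A p.1 ∩ A p.2) then (1 : ℝ) else 0 := by
      intro x
      rw [hP]
      simp only [card_filter, Nat.cast_sum, Nat.cast_ite, Nat.cast_one, Nat.cast_zero]
    simp_rw [h1]
    rw [sum_comm]
    apply sum_congr rfl
    intro p _
    have h2 := hcount (A p.1 ∩ A p.2)
    rw [card_filter] at h2
    have h3 : ((∑ x : Fin t → Fin n, if (∀ s, x s ∈ A p.1 ∩ A p.2) then 1 else 0 : ℕ) : ℝ) =
        ((A p.1 ∩ A p.2).card ^ t : ℕ) := by exact_mod_cast h2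
    push_cast at h3
    exact h3
  have hF1 : (m : ℝ) * (c * n) ^ t ≤ ∑ x, ((F x).card : ℝ) := by
    rw [hsumF]
    calc (m : ℝ) * (c * n) ^ t = ∑ _i : Fin m, (c * n) ^ t := by simp
      _ ≤ _ := by
        apply sum_le_sum
        intro i _
        exact pow_le_pow_left₀ (by positivity) (hA i).le t
  have hP1 : ∑ x, ((P x).card : ℝ) ≤ (m : ℝ) ^ 2 * (ε * n) ^ t := by
    rw [hsumP]
    calc _ ≤ ∑ _p ∈ bad, (ε * n) ^ t := by
          apply sum_le_sum
          intro p hp
          rw [hbad, mem_filter] at hp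
          exact pow_le_pow_left₀ (by positivity) hp.2.2 t
      _ = bad.card * (ε * n) ^ t := by simp
      _ ≤ (m : ℝ) ^ 2 * (ε * n) ^ t := by
          apply mul_le_mul_of_nonneg_right _ (by positivity)
          have : bad.card ≤ m ^ 2 := by
            calc bad.card ≤ (univ : Finset (Fin m × Fin m)).card := card_le_card (subset_univ _)
              _ = m ^ 2 := by simp [sq]
          exact_mod_cast this
  have hex : ∃ x, (m : ℝ) * c ^ t / 2 ≤ ((F x).card : ℝ) - (P x).card := by
    by_contra hcon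
    push Not at hcon
    have h1 : ∑ x, (((F x).card : ℝ) - (P x).card) <
        ∑ _x : Fin t → Fin n, (m : ℝ) * c ^ t / 2 := by
      apply sum_lt_sum_of_nonempty
      · exact ⟨fun _ => ⟨0, hn⟩, mem_univ _⟩
      · intro x _
        exact hcon x
    rw [sum_sub_distrib] at h1
    have h2 : ∑ _x : Fin t → Fin n, (m : ℝ) * c ^ t / 2 = (n : ℝ) ^ t * (m * c ^ t / 2) := by
      simp
    rw [h2] at h1
    have h3 : (m : ℝ) * (c * n) ^ t = n ^ t * (m * c ^ t) := by rw [mul_pow]; ring
    have h4 : (m : ℝ) ^ 2 * (ε * n) ^ t = n ^ t * m * (m * ε ^ t) := by rw [mul_pow]; ring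
    have h5 : (n : ℝ) ^ t * m * (m * ε ^ t) ≤ n ^ t * m * (c ^ t / 2) := by
      apply mul_le_mul_of_nonneg_left _ (by positivity)
      linarith
    nlinarith
  obtain ⟨x, hx⟩ := hex
  refine ⟨F x \ (P x).image Prod.fst, ?_, ?_⟩
  · have h1 : (F x).card - ((P x).image Prod.fst).card ≤ (F x \ (P x).image Prod.fst).card :=
      le_card_sdiff _ _
    have h2 : ((P x).image Prod.fst).card ≤ (P x).card := card_image_le
    have h3 : (F x).card ≤ (F x \ (P x).image Prod.fst).card + (P x).card := by omega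
    have h4 : ((F x).card : ℝ) ≤ (F x \ (P x).image Prod.fst).card + (P x).card := by
      exact_mod_cast h3
    linarith
  · have key : ∀ i ∈ F x \ (P x).image Prod.fst, ∀ j ∈ F x \ (P x).image Prod.fst, i < j →
        ε * n < ((A i ∩ A j).card : ℝ) := by
      intro i hi j hj hij
      by_contra hcon
      push Not at hcon
      rw [mem_sdiff] at hi hj
      apply hi.2
      rw [mem_image]
      refine ⟨(i, j), ?_, rfl⟩
      rw [hP]
      simp only [mem_filter]
      refine ⟨?_, ?_⟩
      · rw [hbad, mem_filter]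
        exact ⟨mem_univ _, hij, hcon⟩
      · intro s
        rw [hF] at hi hj
        simp only [mem_filter, mem_univ, true_and] at hi hj
        exact mem_inter.mpr ⟨hi.1 s, hj.1 s⟩
    intro i hi j hj hne
    rcases lt_or_gt_of_ne hne with h | h
    · exact key i hi j hj h
    · rw [inter_comm]; exact key j hj i hi h

/-- The bound for `m` large compared with `n`: average over `t`-tuples of distinct points,
where `t` exceeds `ε n`. -/
lemma lower_small (n m : ℕ) (hn : 1 ≤ n) (c ε : ℝ) (hε : 0 < ε) (hεc : ε < c)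
    (A : Fin m → Finset (Fin n)) (hA : ∀ k, c * n < ((A k).card : ℝ)) :
    ∃ I : Finset (Fin m), m * (c - ε) ^ (⌊ε * n⌋₊ + 1) ≤ (I.card : ℝ) ∧
      EpsIntersecting ε A I := by
  classical
  rcases Nat.eq_zero_or_pos m with hm0 | hm0
  · subst hm0
    exact ⟨∅, by simp, fun i hi => by simp at hi⟩
  set t := ⌊ε * n⌋₊ + 1 with ht
  have hnR : (0 : ℝ) < n := by exact_mod_cast hn
  have htc : ∀ i, t ≤ (A i).card := by
    intro i
    have h1 : ε * n < ((A i).card : ℝ) := by
      have := hA i
      nlinarith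
    have h2 : ⌊ε * n⌋₊ < (A i).card := (Nat.floor_lt (by positivity)).mpr h1
    omega
  set F : (Fin t ↪ Fin n) → Finset (Fin m) := fun x => univ.filter (fun i => ∀ s, x s ∈ A i)
    with hF
  have hcount : ∀ S : Finset (Fin n),
      S.card.descFactorial t ≤
        ((univ : Finset (Fin t ↪ Fin n)).filter (fun x => ∀ s, x s ∈ S)).card := by
    intro S
    have h1 : Fintype.card (Fin t ↪ {x // x ∈ S}) = S.card.descFactorial t := by
      rw [Fintype.card_embedding_eq]
      simp
    rw [← h1, ← card_univ]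
    apply card_le_card_of_injOn (fun e => e.trans (Function.Embedding.subtype _))
    · intro e _
      simp only [coe_filter, Set.mem_ofPred_eq]
      exact ⟨mem_univ _, fun s => (e s).2⟩
    · intro e _ e' _ h
      apply DFunLike.ext
      intro s
      have := DFunLike.congr_fun h s
      exact Subtype.ext this
  have hsumF : (m : ℝ) * ((c - ε) * n) ^ t ≤ ∑ x, ((F x).card : ℝ) := by
    have h1 : ∀ x, ((F x).card : ℝ) = ∑ i, if (∀ s, x s ∈ A i) then (1 : ℝ) else 0 := by
      intro x
      rw [hF]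
      simp only [card_filter, Nat.cast_sum, Nat.cast_ite, Nat.cast_one, Nat.cast_zero]
    simp_rw [h1]
    rw [sum_comm]
    calc (m : ℝ) * ((c - ε) * n) ^ t = ∑ _i : Fin m, ((c - ε) * n) ^ t := by simp
      _ ≤ _ := by
        apply sum_le_sum
        intro i _
        have h2 := hcount (A i)
        rw [card_filter] at h2
        have h3 : (((A i).card.descFactorial t : ℕ) : ℝ) ≤
          ((∑ x : Fin t ↪ Fin n, if (∀ s, x s ∈ A i) then 1 else 0 : ℕ) : ℝ) := by
          exact_mod_cast h2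
        push_cast at h3
        refine le_trans ?_ h3
        have h4 : ((A i).card + 1 - t) ^ t ≤ (A i).card.descFactorial t :=
          Nat.pow_sub_le_descFactorial _ _
        have h5 : (((A i).card + 1 - t : ℕ) : ℝ) ^ t ≤ ((A i).card.descFactorial t : ℕ) := by
          exact_mod_cast h4
        refine le_trans ?_ h5
        apply pow_le_pow_left₀
        · have : 0 < c - ε := by linarith
          positivity
        · have h6 := htc i
          rw [Nat.cast_sub (by omega)]
          have h7 : (⌊ε * n⌋₊ : ℝ) ≤ ε * n := Nat.floor_le (by positivity)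
          have h8 := hA i
          rw [ht]
          push_cast
          linarith
  have hex : ∃ x, (m : ℝ) * (c - ε) ^ t ≤ ((F x).card : ℝ) := by
    by_contra hcon
    push Not at hcon
    have hpos : 0 < (m : ℝ) * ((c - ε) * n) ^ t := by
      have h1 : 0 < c - ε := by linarith
      have h2 : (0 : ℝ) < m := by exact_mod_cast hm0
      positivity
    have hne : (univ : Finset (Fin t ↪ Fin n)).Nonempty := by
      by_contra hcon2
      rw [not_nonempty_iff_eq_empty] at hcon2
      rw [hcon2] at hsumF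
      simp only [sum_empty] at hsumF
      linarith
    have h1 : ∑ x, ((F x).card : ℝ) < ∑ _x : Fin t ↪ Fin n, (m : ℝ) * (c - ε) ^ t := by
      apply sum_lt_sum_of_nonempty hne
      intro x _
      exact hcon x
    have h2 : ∑ _x : Fin t ↪ Fin n, (m : ℝ) * (c - ε) ^ t =
        (n.descFactorial t : ℕ) * (m * (c - ε) ^ t) := by
      rw [sum_const, card_univ, Fintype.card_embedding_eq]
      simp
    rw [h2] at h1
    have h3 : ((n.descFactorial t : ℕ) : ℝ) ≤ (n : ℝ) ^ t := by
      exact_mod_cast Nat.descFactorial_le_pow n t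
    have h4 : ((n.descFactorial t : ℕ) : ℝ) * (m * (c - ε) ^ t) ≤
        (n : ℝ) ^ t * (m * (c - ε) ^ t) := by
      apply mul_le_mul_of_nonneg_right h3
      have : 0 < c - ε := by linarith
      positivity
    have h5 : (m : ℝ) * ((c - ε) * n) ^ t = n ^ t * (m * (c - ε) ^ t) := by rw [mul_pow]; ring
    linarith
  obtain ⟨x, hx⟩ := hex
  refine ⟨F x, hx, ?_⟩
  intro i hi j hj _
  rw [hF] at hi hj
  simp only [mem_filter, mem_univ, true_and] at hi hj
  have h1 : (univ : Finset (Fin t)).map x ⊆ A i ∩ A j := by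
    intro y hy
    rw [mem_map] at hy
    obtain ⟨s, -, rfl⟩ := hy
    exact mem_inter.mpr ⟨hi s, hj s⟩
  have h2 := card_le_card h1
  rw [card_map] at h2
  simp only [card_univ, Fintype.card_fin] at h2
  have h3 : (t : ℝ) ≤ ((A i ∩ A j).card : ℝ) := by exact_mod_cast h2
  have h4 := Nat.lt_floor_add_one (ε * n)
  rw [ht] at h3
  push_cast at h3
  linarith

/-- The lower bound: for `ε` small in terms of `c` and `δ`,
`f(n,m,c,ε) ≥ (c/2) 2^(-δ)  m exp(-δ min(n, log m))`. -/
lemma lower (c δ : ℝ) (hc0 : 0 < c) (hc1 : c ≤ 1 / 2) (hδ : 0 < δ) :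
    ∃ ε₀ : ℝ, 0 < ε₀ ∧ ε₀ ≤ 1 ∧ ∀ ε : ℝ, 0 < ε → ε ≤ ε₀ → ∀ n m : ℕ, 1 ≤ n → 1 ≤ m →
      (c / 2 * Real.exp (-δ)) * (m * Real.exp (-(δ * min (n : ℝ) (Real.log m)))) ≤
        (f n m c ε : ℝ) := by
  have hl2 : 0 < Real.log (2 / c) := Real.log_pos (by rw [lt_div_iff₀ hc0]; linarith)
  have hl1 : 0 < Real.log (1 / c) := Real.log_pos (by rw [lt_div_iff₀ hc0]; linarith)
  refine ⟨min (c / 2) (min (δ / Real.log (2 / c)) (c * Real.exp (-(Real.log (1 / c) / δ)))),
    by positivity, ?_, ?_⟩
  · exact le_trans (min_le_left _ _) (by linarith)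
  intro ε hε hεle n m hn hm
  have hε1 : ε ≤ c / 2 := le_trans hεle (min_le_left _ _)
  have hε2 : ε ≤ δ / Real.log (2 / c) :=
    le_trans hεle (le_trans (min_le_right _ _) (min_le_left _ _))
  have hε3 : ε ≤ c * Real.exp (-(Real.log (1 / c) / δ)) :=
    le_trans hεle (le_trans (min_le_right _ _) (min_le_right _ _))
  have hmR : (0 : ℝ) < m := by exact_mod_cast hm
  have hlogm : 0 ≤ Real.log m := Real.log_nonneg (by exact_mod_cast hm)
  apply le_f hn (by linarith)
  intro A hA
  rcases le_total (n : ℝ) (Real.log m) with hnm | hnm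
  · rw [min_eq_left hnm]
    obtain ⟨I, hI, hE⟩ := lower_small n m hn c ε hε (by linarith) A hA
    refine ⟨I, le_trans ?_ hI, hE⟩
    set t := ⌊ε * n⌋₊ + 1 with ht
    have ht1 : (t : ℝ) ≤ ε * n + 1 := by
      rw [ht]; push_cast
      have := Nat.floor_le (show 0 ≤ ε * n by positivity)
      linarith
    have h1 : (c / 2) ^ t ≤ (c - ε) ^ t := pow_le_pow_left₀ (by positivity) (by linarith) t
    have h2 : (c / 2) ^ t = Real.exp (-(t * Real.log (2 / c))) := by
      have h21 : c / 2 = Real.exp (-Real.log (2 / c)) := by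
        rw [Real.exp_neg, Real.exp_log (by positivity)]
        field_simp
      calc (c / 2) ^ t = (Real.exp (-Real.log (2 / c))) ^ t := by rw [← h21]
        _ = Real.exp (-(t * Real.log (2 / c))) := by
            rw [← Real.exp_nat_mul]
            congr 1
            ring
    have h3 : c / 2 * Real.exp (-(δ * n)) ≤ (c / 2) ^ t := by
      rw [h2]
      have h31 : c / 2 = Real.exp (-Real.log (2 / c)) := by
        rw [Real.exp_neg, Real.exp_log (by positivity)]
        field_simp
      calc c / 2 * Real.exp (-(δ * n)) = Real.exp (-Real.log (2 / c) + -(δ * n)) := by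
            rw [Real.exp_add, ← h31]
        _ ≤ _ := ?_
      apply Real.exp_le_exp.mpr
      have h32 : ε * Real.log (2 / c) ≤ δ := by
        rw [le_div_iff₀ hl2] at hε2; exact hε2
      have h33 : (t : ℝ) * Real.log (2 / c) ≤ (ε * n + 1) * Real.log (2 / c) :=
        mul_le_mul_of_nonneg_right ht1 hl2.le
      have h34 : (0 : ℝ) ≤ n := by positivity
      nlinarith
    have h4 : Real.exp (-δ) ≤ 1 := by rw [Real.exp_le_one_iff]; linarith
    calc c / 2 * Real.exp (-δ) * (m * Real.exp (-(δ * n)))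
        = Real.exp (-δ) * (m * (c / 2 * Real.exp (-(δ * n)))) := by ring
      _ ≤ 1 * (m * (c / 2 * Real.exp (-(δ * n)))) := by
          apply mul_le_mul_of_nonneg_right h4; positivity
      _ ≤ m * (c - ε) ^ t := by
          rw [one_mul]
          apply mul_le_mul_of_nonneg_left _ hmR.le
          exact h3.trans h1
  · rw [min_eq_right hnm]
    have hratio : 1 < c / ε := by rw [lt_div_iff₀ hε]; linarith
    have hlr : 0 < Real.log (c / ε) := Real.log_pos hratio
    set t := ⌈Real.log (2 * m) / Real.log (c / ε)⌉₊ with ht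
    have hlog2m : 0 ≤ Real.log (2 * m) := Real.log_nonneg (by
      have : (1 : ℝ) ≤ m := by exact_mod_cast hm
      linarith)
    have htge : Real.log (2 * m) / Real.log (c / ε) ≤ t := Nat.le_ceil _
    have htlt : (t : ℝ) < Real.log (2 * m) / Real.log (c / ε) + 1 :=
      Nat.ceil_lt_add_one (by positivity)
    have hpow : 2 * m * ε ^ t ≤ c ^ t := by
      have h1 : Real.log (2 * m) ≤ t * Real.log (c / ε) := by
        rwa [div_le_iff₀ hlr] at htge
      have h2 : 2 * (m : ℝ) ≤ (c / ε) ^ t := by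
        have h21 : (c / ε) ^ t = Real.exp (t * Real.log (c / ε)) := by
          rw [Real.exp_nat_mul, Real.exp_log (by positivity)]
        rw [h21]
        calc 2 * (m : ℝ) = Real.exp (Real.log (2 * m)) := (Real.exp_log (by positivity)).symm
          _ ≤ _ := Real.exp_le_exp.mpr h1
      rw [div_pow, le_div_iff₀ (by positivity)] at h2
      exact h2
    obtain ⟨I, hI, hE⟩ := lower_drc n m t hn c ε hc0 hε hpow A hA
    refine ⟨I, le_trans ?_ hI, hE⟩
    have hgam : Real.log (1 / c) ≤ δ * Real.log (c / ε) := by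
      have h1 : Real.exp (Real.log (1 / c) / δ) ≤ c / ε := by
        rw [le_div_iff₀ hε]
        calc Real.exp (Real.log (1 / c) / δ) * ε
            ≤ Real.exp (Real.log (1 / c) / δ) * (c * Real.exp (-(Real.log (1 / c) / δ))) :=
              mul_le_mul_of_nonneg_left hε3 (Real.exp_pos _).le
          _ = c * (Real.exp (Real.log (1 / c) / δ) * Real.exp (-(Real.log (1 / c) / δ))) := by ring
          _ = c := by rw [← Real.exp_add]; simp
      have h2 : Real.log (1 / c) / δ ≤ Real.log (c / ε) := by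
        rw [Real.le_log_iff_exp_le (by positivity)]
        exact h1
      rw [div_le_iff₀ hδ] at h2
      linarith
    have hct : c * (Real.exp (-δ) * Real.exp (-(δ * Real.log m))) ≤ c ^ t := by
      have h1 : c ^ t = Real.exp (-(t * Real.log (1 / c))) := by
        have h11 : c = Real.exp (-Real.log (1 / c)) := by
          rw [Real.exp_neg, Real.exp_log (by positivity)]
          field_simp
        conv_lhs => rw [h11]
        rw [← Real.exp_nat_mul]
        congr 1
        ring
      have h2 : c = Real.exp (-Real.log (1 / c)) := by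
        rw [Real.exp_neg, Real.exp_log (by positivity)]
        field_simp
      rw [h1]
      calc c * (Real.exp (-δ) * Real.exp (-(δ * Real.log m)))
          = Real.exp (-Real.log (1 / c)) * (Real.exp (-δ) * Real.exp (-(δ * Real.log m))) := by
            rw [← h2]
        _ = Real.exp (-Real.log (1 / c) + (-δ + -(δ * Real.log m))) := by
            rw [Real.exp_add, Real.exp_add]
        _ ≤ _ := by
            apply Real.exp_le_exp.mpr
            have h3 : (t : ℝ) * Real.log (1 / c) ≤
                (Real.log (2 * m) / Real.log (c / ε) + 1) * Real.log (1 / c) :=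
              mul_le_mul_of_nonneg_right htlt.le hl1.le
            have h4 : Real.log (2 * m) / Real.log (c / ε) * Real.log (1 / c) ≤
                δ * Real.log (2 * m) := by
              rw [div_mul_eq_mul_div, div_le_iff₀ hlr]
              calc Real.log (2 * m) * Real.log (1 / c) ≤
                  Real.log (2 * m) * (δ * Real.log (c / ε)) :=
                    mul_le_mul_of_nonneg_left hgam hlog2m
                _ = _ := by ring
            have h5 : Real.log (2 * m) = Real.log 2 + Real.log m :=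
              Real.log_mul (by norm_num) (by positivity)
            have h6 : Real.log 2 ≤ 1 := by
              have := Real.log_two_lt_d9
              linarith
            have h7 : δ * Real.log (2 * m) ≤ δ + δ * Real.log m := by
              rw [h5]; nlinarith
            nlinarith
    calc c / 2 * Real.exp (-δ) * (m * Real.exp (-(δ * Real.log m)))
        = m * (c * (Real.exp (-δ) * Real.exp (-(δ * Real.log m)))) / 2 := by ring
      _ ≤ m * c ^ t / 2 := by
          apply div_le_div_of_nonneg_right _ (by norm_num)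
          exact mul_le_mul_of_nonneg_left hct hmR.le

/-- For every `0 < c ≤ 1/2`:

* for every `δ > 0` and all sufficiently small `ε > 0` there are `α, K > 0` such that for all
  `n, m ≥ 1`: `m exp(-δ L) / K ≤ f(n,m,c,ε) ≤ K m exp(-α L)` with `L = min(n, log m)`;
* for every `δ > 0` and all sufficiently small `ε > 0` there are `η, γ, K > 0` such that for
  all `n ≥ 1`: `η n^(1-δ) < f(n,n,c,ε) ≤ K n^(1-γ)`;
* in particular (`δ = 1/2`) `f(n,n,c,ε) > η n^(1/2)` for small `ε`;
* for all `ε, η > 0` one has `f(n,m,c,ε) < η m` for all large `m` and all `n > m`. -/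
theorem result (c : ℝ) (hc0 : 0 < c) (hc1 : c ≤ 1 / 2) :
    (∀ δ : ℝ, 0 < δ → ∃ ε₀ : ℝ, 0 < ε₀ ∧ ∀ ε : ℝ, 0 < ε → ε ≤ ε₀ →
      ∃ α K : ℝ, 0 < α ∧ 0 < K ∧ ∀ n m : ℕ, 1 ≤ n → 1 ≤ m →
        m * Real.exp (-(δ * min (n : ℝ) (Real.log m))) ≤ K * (f n m c ε : ℝ) ∧
        (f n m c ε : ℝ) ≤ K * (m * Real.exp (-(α * min (n : ℝ) (Real.log m))))) ∧
    (∀ δ : ℝ, 0 < δ → ∃ ε₀ : ℝ, 0 < ε₀ ∧ ∀ ε : ℝ, 0 < ε → ε ≤ ε₀ →
      ∃ η γ K : ℝ, 0 < η ∧ 0 < γ ∧ 0 < K ∧ ∀ n : ℕ, 1 ≤ n →
        η * (n : ℝ) ^ (1 - δ) < (f n n c ε : ℝ) ∧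
        (f n n c ε : ℝ) ≤ K * (n : ℝ) ^ (1 - γ)) ∧
    (∃ ε₀ : ℝ, 0 < ε₀ ∧ ∀ ε : ℝ, 0 < ε → ε ≤ ε₀ → ∃ η : ℝ, 0 < η ∧ ∀ n : ℕ, 1 ≤ n →
      η * Real.sqrt n < (f n n c ε : ℝ)) ∧
    (∀ ε : ℝ, 0 < ε → ∀ η : ℝ, 0 < η → ∃ m₀ : ℕ, ∀ m : ℕ, m₀ ≤ m → ∀ n : ℕ, m < n →
      (f n m c ε : ℝ) < η * m) := by
  have part1 : ∀ δ : ℝ, 0 < δ → ∃ ε₀ : ℝ, 0 < ε₀ ∧ ∀ ε : ℝ, 0 < ε → ε ≤ ε₀ →
      ∃ α K : ℝ, 0 < α ∧ 0 < K ∧ ∀ n m : ℕ, 1 ≤ n → 1 ≤ m →
        m * Real.exp (-(δ * min (n : ℝ) (Real.log m))) ≤ K * (f n m c ε : ℝ) ∧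
        (f n m c ε : ℝ) ≤ K * (m * Real.exp (-(α * min (n : ℝ) (Real.log m)))) := by
    intro δ hδ
    obtain ⟨ε₀, hε₀, hε₀1, hlow⟩ := lower c δ hc0 hc1 hδ
    refine ⟨ε₀, hε₀, ?_⟩
    intro ε hε hεle
    set a := c / 2 * Real.exp (-δ) with ha
    have hapos : 0 < a := by positivity
    refine ⟨ε ^ 3 / 8, max (1 / a) (2 * Real.exp 1), by positivity, by positivity, ?_⟩
    intro n m hn hm
    constructor
    · have h1 := hlow ε hε hεle n m hn hm
      have h2 : (m : ℝ) * Real.exp (-(δ * min (n : ℝ) (Real.log m))) ≤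
          1 / a * (f n m c ε : ℝ) := by
        rw [one_div, inv_mul_eq_div, le_div_iff₀ hapos]
        linarith
      exact h2.trans (mul_le_mul_of_nonneg_right (le_max_left _ _) (Nat.cast_nonneg _))
    · have h1 := upper n m hn hm c ε ε hc1 hε (hεle.trans hε₀1) le_rfl
      refine h1.trans ?_
      apply mul_le_mul_of_nonneg_right (le_max_right _ _)
      positivity
  have part2 : ∀ δ : ℝ, 0 < δ → ∃ ε₀ : ℝ, 0 < ε₀ ∧ ∀ ε : ℝ, 0 < ε → ε ≤ ε₀ →
      ∃ η γ K : ℝ, 0 < η ∧ 0 < γ ∧ 0 < K ∧ ∀ n : ℕ, 1 ≤ n →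
        η * (n : ℝ) ^ (1 - δ) < (f n n c ε : ℝ) ∧
        (f n n c ε : ℝ) ≤ K * (n : ℝ) ^ (1 - γ) := by
    intro δ hδ
    obtain ⟨ε₀, hε₀, h⟩ := part1 δ hδ
    refine ⟨ε₀, hε₀, ?_⟩
    intro ε hε hεle
    obtain ⟨α, K, hα, hK, h⟩ := h ε hε hεle
    refine ⟨1 / (2 * K), α, K, by positivity, hα, hK, ?_⟩
    intro n hn
    have hnR : (0 : ℝ) < n := by exact_mod_cast hn
    have hlog : Real.log n ≤ n := (Real.log_le_sub_one_of_pos hnR).trans (by linarith)
    have hpow : ∀ s : ℝ, (n : ℝ) * Real.exp (-(s * min (n : ℝ) (Real.log n))) =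
        (n : ℝ) ^ (1 - s) := by
      intro s
      rw [min_eq_right hlog, Real.rpow_def_of_pos hnR]
      have : Real.log n * (1 - s) = Real.log n + -(s * Real.log n) := by ring
      rw [this, Real.exp_add, Real.exp_log hnR]
    obtain ⟨h1, h2⟩ := h n n hn hn
    rw [hpow] at h1 h2
    refine ⟨?_, h2⟩
    have hp : 0 < (n : ℝ) ^ (1 - δ) := Real.rpow_pos_of_pos hnR _
    have h3 : 1 / (2 * K) * (n : ℝ) ^ (1 - δ) ≤ (f n n c ε : ℝ) / 2 := by
      rw [div_mul_eq_mul_div, one_mul, div_le_div_iff₀ (by positivity) (by norm_num)]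
      linarith
    have h4 : 0 < (f n n c ε : ℝ) := by
      by_contra hcon
      push Not at hcon
      nlinarith
    linarith
  refine ⟨part1, part2, ?_, ?_⟩
  · obtain ⟨ε₀, hε₀, h⟩ := part2 (1 / 2) (by norm_num)
    refine ⟨ε₀, hε₀, ?_⟩
    intro ε hε hεle
    obtain ⟨η, γ, K, hη, hγ, hK, h⟩ := h ε hε hεle
    refine ⟨η, hη, ?_⟩
    intro n hn
    have h1 := (h n hn).1
    rw [Real.sqrt_eq_rpow]
    have h2 : (1 - 1 / 2 : ℝ) = 1 / 2 := by norm_num
    rw [h2] at h1
    exact h1
  · intro ε hε η hη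
    set a := (min ε 1) ^ 3 / 8 with ha
    have hmin : 0 < min ε 1 := lt_min hε one_pos
    have hapos : 0 < a := by positivity
    refine ⟨⌈Real.exp (Real.log (2 * Real.exp 1 / η) / a + 1)⌉₊ + 1, ?_⟩
    intro m hm n hmn
    have hm1 : 1 ≤ m := by omega
    have hmR : (0 : ℝ) < m := by exact_mod_cast hm1
    have h1 := upper n m (by omega) hm1 c (min ε 1) ε hc1 hmin (min_le_right _ _) (min_le_left _ _)
    have hlog : Real.log m ≤ n := by
      have h11 : Real.log m ≤ m := (Real.log_le_sub_one_of_pos hmR).trans (by linarith)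
      have h12 : (m : ℝ) ≤ n := by exact_mod_cast hmn.le
      linarith
    rw [min_eq_right hlog, ← ha] at h1
    have h2 : Real.exp (Real.log (2 * Real.exp 1 / η) / a + 1) ≤ m := by
      calc _ ≤ ((⌈Real.exp (Real.log (2 * Real.exp 1 / η) / a + 1)⌉₊ : ℕ) : ℝ) := Nat.le_ceil _
        _ ≤ m := by exact_mod_cast (by omega)
    have h3 : Real.log (2 * Real.exp 1 / η) / a + 1 ≤ Real.log m := by
      rw [Real.le_log_iff_exp_le hmR]
      exact h2
    have h4 : Real.log (2 * Real.exp 1 / η) < a * Real.log m := by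
      have h41 : Real.log (2 * Real.exp 1 / η) / a < Real.log m := by linarith
      rw [div_lt_iff₀ hapos] at h41
      linarith
    have h5 : 2 * Real.exp 1 * Real.exp (-(a * Real.log m)) < η := by
      have h51 : Real.exp (-(a * Real.log m)) < Real.exp (-(Real.log (2 * Real.exp 1 / η))) :=
        Real.exp_lt_exp.mpr (by linarith)
      have h52 : Real.exp (-(Real.log (2 * Real.exp 1 / η))) = η / (2 * Real.exp 1) := by
        rw [Real.exp_neg, Real.exp_log (by positivity)]
        field_simp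
      rw [h52, lt_div_iff₀ (by positivity)] at h51
      linarith
    calc (f n m c ε : ℝ) ≤ 2 * Real.exp 1 * (m * Real.exp (-(a * Real.log m))) := h1
      _ = (2 * Real.exp 1 * Real.exp (-(a * Real.log m))) * m := by ring
      _ < η * m := mul_lt_mul_of_pos_right h5 hmR

end Pool.Agent.Results.MP_cecf76_co.DenseIntersecting
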